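import Pool.Agent.Run7.h434.EP.Iface

/-!
# Project EP (helper434), piece BND: the size of a centred body (helper803)
-/

set_option autoImplicit false
set_option linter.all false

namespace Run7.h803.EP

open MeasureTheory Set Filter Topology
open scoped ENNReal InnerProductSpace
open Pool.Agent.W695.KH (Eu EV VV)
open Run7.h434.EP

/-- change of variables -/
theorem homot {κ : Type} [Fintype κ] (F : Eu κ → ℝ) (p : Eu κ) {r : ℝ} (hr : 0 < r) :
    ∫ x, F x = r ^ Fintype.card κ * ∫ x, F (r • x + p) := by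
  have h1 : ∫ x, F (r • x + p) = |(r ^ Module.finrank ℝ (Eu κ))⁻¹| • ∫ x, F (x + p) :=
    Measure.integral_comp_smul volume (fun x => F (x + p)) r
  rw [integral_add_right_eq_self] at h1
  rw [h1, finrank_euclideanSpace, abs_of_pos (by positivity), smul_eq_mul, ← mul_assoc,
    mul_inv_cancel₀ (by positivity), one_mul]

theorem third (d : ℕ) (hd : 1 ≤ d) : (1 : ℝ) / 3 ≤ (1 - 1 / ((d : ℝ) + 1)) ^ d := by
  have hd0 : (0 : ℝ) < d := by exact_mod_cast hd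
  have h1 : (1 - 1 / ((d : ℝ) + 1)) * (1 + 1 / d) = 1 := by field_simp; ring
  have h2 : (1 - 1 / ((d : ℝ) + 1)) ^ d * (1 + 1 / d) ^ d = 1 := by rw [← mul_pow, h1, one_pow]
  have h3 : (1 + 1 / (d : ℝ)) ^ d ≤ 3 := by
    have h4 : 1 + 1 / (d : ℝ) ≤ Real.exp (1 / d) := by
      have := Real.add_one_le_exp (1 / (d : ℝ))
      linarith
    have h5 := pow_le_pow_left₀ (by positivity) h4 d
    rw [← Real.exp_nat_mul, mul_one_div_cancel hd0.ne'] at h5
    have h6 := Real.exp_one_lt_d9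
    linarith
  have h7 : 0 ≤ (1 - 1 / ((d : ℝ) + 1)) ^ d := by
    apply pow_nonneg
    rw [sub_nonneg, div_le_one (by positivity)]
    linarith
  nlinarith

theorem t_BND : S_BND := by
  intro κ _ _ L s hL h1 h2 p hp
  obtain ⟨d, hd⟩ : ∃ d : ℕ, d = Fintype.card κ := ⟨_, rfl⟩
  have hd1 : 1 ≤ d := by rw [hd]; exact Fintype.card_pos
  have hd0 : (1 : ℝ) ≤ d := by exact_mod_cast hd1
  have hLm : MeasurableSet L := hL.comp.measurableSet
  have hV : 0 < (volume L).toReal := by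
    refine ENNReal.toReal_pos ?_ hL.comp.measure_lt_top.ne
    exact (Measure.measure_pos_of_mem_nhds volume (mem_interior_iff_mem_nhds.1 hL.zero)).ne'
  have hs : 0 ≤ s := by
    obtain ⟨θ, hθ⟩ := exists_ne (0 : Eu κ)
    have h3 : 0 ≤ EV L (fun x => ⟪θ, x⟫_ℝ ^ 2) := by
      unfold EV
      exact div_nonneg (integral_nonneg fun x => sq_nonneg _) hV.le
    have h4 := h3.trans (h2 θ)
    have h5 : 0 < ‖θ‖ ^ 2 := by positivity
    exact nonneg_of_mul_nonneg_left h4 h5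
  rw [← hd]
  obtain ⟨t, ht⟩ : ∃ t : ℝ, t = 1 / ((d : ℝ) + 1) := ⟨_, rfl⟩
  obtain ⟨r, hr⟩ : ∃ r : ℝ, r = 1 - t := ⟨_, rfl⟩
  have ht0 : 0 < t := by rw [ht]; positivity
  have hr0 : 0 < r := by
    rw [hr, ht, sub_pos, div_lt_one (by positivity)]
    linarith
  have hg : IntegrableOn (fun x : Eu κ => ⟪p, x⟫_ℝ ^ 2) L :=
    (Continuous.continuousOn (by fun_prop)).integrableOn_compact hL.comp
  have hl : IntegrableOn (fun x : Eu κ => ⟪p, x⟫_ℝ) L :=
    (Continuous.continuousOn (by fun_prop)).integrableOn_compact hL.comp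
  have hgr : IntegrableOn (fun x : Eu κ => ⟪p, r • x + t • p⟫_ℝ ^ 2) L :=
    (Continuous.continuousOn (by fun_prop)).integrableOn_compact hL.comp
  -- the linear term
  have hB : ∫ x in L, ⟪p, x⟫_ℝ = 0 := by
    have := h1 p
    unfold EV at this
    rcases div_eq_zero_iff.1 this with h | h
    · exact h
    · exact absurd h hV.ne'
  have hA : (∫ x in L, ⟪p, x⟫_ℝ ^ 2) ≤ s * ‖p‖ ^ 2 * (volume L).toReal := by
    have := h2 p
    unfold EV at this
    rwa [div_le_iff₀ hV] at this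
  have hA0 : 0 ≤ ∫ x in L, ⟪p, x⟫_ℝ ^ 2 := integral_nonneg fun x => sq_nonneg _
  -- the inequality
  have key : r ^ d * ∫ x in L, ⟪p, r • x + t • p⟫_ℝ ^ 2 ≤ ∫ x in L, ⟪p, x⟫_ℝ ^ 2 := by
    rw [← integral_indicator hLm, ← integral_indicator hLm]
    rw [homot (L.indicator fun x => ⟪p, x⟫_ℝ ^ 2) (t • p) hr0, ← hd]
    apply mul_le_mul_of_nonneg_left _ (pow_nonneg hr0.le d)
    refine integral_mono ((integrable_indicator_iff hLm).2 hgr) ?_ ?_
    · have h3 : Integrable (L.indicator fun x : Eu κ => ⟪p, x⟫_ℝ ^ 2) :=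
        (integrable_indicator_iff hLm).2 hg
      exact (h3.comp_add_right (t • p)).comp_smul hr0.ne'
    · intro x
      by_cases hx : x ∈ L
      · have h4 : r • x + t • p ∈ L := hL.conv hx hp hr0.le ht0.le (by rw [hr]; ring)
        simp only [Set.indicator_of_mem hx, Set.indicator_of_mem h4]
        exact le_rfl
      · simp only [Set.indicator_of_notMem hx]
        exact Set.indicator_nonneg (fun _ _ => sq_nonneg _) _
  have hexp : ∫ x in L, ⟪p, r • x + t • p⟫_ℝ ^ 2 =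
      r ^ 2 * (∫ x in L, ⟪p, x⟫_ℝ ^ 2) + t ^ 2 * ‖p‖ ^ 4 * (volume L).toReal := by
    have e1 : ∀ x : Eu κ, ⟪p, r • x + t • p⟫_ℝ ^ 2 =
        r ^ 2 * ⟪p, x⟫_ℝ ^ 2 + 2 * r * t * ‖p‖ ^ 2 * ⟪p, x⟫_ℝ + t ^ 2 * ‖p‖ ^ 4 := by
      intro x
      rw [inner_add_right, inner_smul_right, inner_smul_right, real_inner_self_eq_norm_sq]
      ring
    simp only [e1]
    have j1 : IntegrableOn (fun x : Eu κ => r ^ 2 * ⟪p, x⟫_ℝ ^ 2) L := hg.const_mul (r ^ 2)
    have j2 : IntegrableOn (fun x : Eu κ => 2 * r * t * ‖p‖ ^ 2 * ⟪p, x⟫_ℝ) L :=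
      hl.const_mul (2 * r * t * ‖p‖ ^ 2)
    have j3 : IntegrableOn (fun x : Eu κ =>
        r ^ 2 * ⟪p, x⟫_ℝ ^ 2 + 2 * r * t * ‖p‖ ^ 2 * ⟪p, x⟫_ℝ) L := j1.add j2
    have j4 : IntegrableOn (fun x : Eu κ => t ^ 2 * ‖p‖ ^ 4) L :=
      integrableOn_const (hL.comp.measure_lt_top.ne)
    rw [integral_add j3 j4, integral_add j1 j2, integral_const_mul, integral_const_mul, hB,
      setIntegral_const, smul_eq_mul]
    have e2 : volume.real L = (volume L).toReal := rfl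
    rw [e2]
    ring
  have hthird := third d hd1
  rw [← ht, ← hr] at hthird
  have h6 : r ^ d * (t ^ 2 * ‖p‖ ^ 4 * (volume L).toReal) ≤ s * ‖p‖ ^ 2 * (volume L).toReal := by
    refine le_trans ?_ (key.trans hA)
    apply mul_le_mul_of_nonneg_left _ (pow_nonneg hr0.le d)
    rw [hexp]
    have : 0 ≤ r ^ 2 * ∫ x in L, ⟪p, x⟫_ℝ ^ 2 := mul_nonneg (sq_nonneg r) hA0
    linarith
  have h7 : r ^ d * (t ^ 2 * ‖p‖ ^ 4) ≤ s * ‖p‖ ^ 2 := by
    apply le_of_mul_le_mul_right _ hV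
    linarith
  rcases eq_or_ne p 0 with h0 | h0
  · rw [h0, norm_zero]
    have : 0 ≤ 12 * (d : ℝ) ^ 2 * s := by positivity
    simpa using this
  · have hp0 : 0 < ‖p‖ ^ 2 := by positivity
    have ht2 : 1 / (4 * (d : ℝ) ^ 2) ≤ t ^ 2 := by
      rw [ht, div_pow, one_pow]
      apply one_div_le_one_div_of_le (by positivity)
      nlinarith
    have h8 : 1 / 3 * (1 / (4 * (d : ℝ) ^ 2)) ≤ r ^ d * t ^ 2 :=
      mul_le_mul hthird ht2 (by positivity) (pow_nonneg hr0.le d)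
    have h9 : 1 / 3 * (1 / (4 * (d : ℝ) ^ 2)) * ‖p‖ ^ 2 ≤ s := by
      have h10 : (r ^ d * t ^ 2 * ‖p‖ ^ 2) * ‖p‖ ^ 2 ≤ s * ‖p‖ ^ 2 := by
        calc (r ^ d * t ^ 2 * ‖p‖ ^ 2) * ‖p‖ ^ 2 = r ^ d * (t ^ 2 * ‖p‖ ^ 4) := by ring
          _ ≤ _ := h7
      have h11 := le_of_mul_le_mul_right h10 hp0
      exact (mul_le_mul_of_nonneg_right h8 hp0.le).trans h11
    have h12 : ‖p‖ ^ 2 = 12 * (d : ℝ) ^ 2 * (1 / 3 * (1 / (4 * (d : ℝ) ^ 2)) * ‖p‖ ^ 2) := by
      field_simp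
      ring
    rw [h12]
    exact mul_le_mul_of_nonneg_left h9 (by positivity)

end Run7.h803.EP
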