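import Pool.Agent.Run7.h434.EP.Iface

/-!
# Project EP (helper434), piece MEAN: some coordinate has a large mean (helper803)
-/

set_option autoImplicit false
set_option linter.all false

namespace Run7.h803.EP

open MeasureTheory Set Filter Topology
open scoped ENNReal
open Run7.h523.KF (KK sv)
open Run7.h434.EP

theorem mem_KK {n : ℕ} (adj : Fin n → Fin n → Prop) (y : Fin n → ℝ) : y ∈ KK (Rel adj) ↔
    (∀ v, -1 ≤ y v ∧ y v ≤ 1) ∧ ∀ v w, adj v w → y v ≤ -y w := by
  constructor
  · rintro ⟨h1, h2⟩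
    refine ⟨h1, fun v w hvw => ?_⟩
    have := h2 (v, true) (w, false) ⟨rfl, rfl, hvw⟩
    simpa [sv] using this
  · rintro ⟨h1, h2⟩
    refine ⟨h1, ?_⟩
    rintro ⟨v, a⟩ ⟨w, b⟩ ⟨ha, hb, hvw⟩
    simp only at ha hb hvw
    subst ha
    subst hb
    simpa [sv] using h2 v w hvw

theorem KK_closed {n : ℕ} (adj : Fin n → Fin n → Prop) : IsClosed (KK (Rel adj)) := by
  have h : KK (Rel adj) = {y : Fin n → ℝ | ∀ v, -1 ≤ y v ∧ y v ≤ 1} ∩
      {y : Fin n → ℝ | ∀ v w, adj v w → y v ≤ -y w} := by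
    ext y
    rw [mem_KK]
    rfl
  rw [h]
  refine IsClosed.inter ?_ ?_
  · simp only [Set.setOf_forall]
    refine isClosed_iInter fun v => ?_
    exact (isClosed_le continuous_const (continuous_apply v)).inter
      (isClosed_le (continuous_apply v) continuous_const)
  · simp only [Set.setOf_forall]
    refine isClosed_iInter fun v => isClosed_iInter fun w => isClosed_iInter fun _ => ?_
    exact isClosed_le (continuous_apply v) (continuous_apply w).neg

/-- the one dimensional integral -/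
theorem one_dim : ∫ y in Icc (-1 : ℝ) 1, Real.exp (-(11 / 4 * (1 + y))) ≤ 4 / 11 := by
  rw [integral_Icc_eq_integral_Ioc, ← intervalIntegral.integral_of_le (by norm_num)]
  have h1 : ∀ y ∈ uIcc (-1 : ℝ) 1, HasDerivAt (fun y : ℝ => -(4 / 11) * Real.exp (-(11 / 4 * (1 + y))))
      (Real.exp (-(11 / 4 * (1 + y)))) y := by
    intro y _
    have h2 : HasDerivAt (fun y : ℝ => -(11 / 4 * (1 + y))) (-(11 / 4)) y := by
      have h := (((hasDerivAt_id' y).const_add (1 : ℝ)).const_mul (11 / 4 : ℝ)).neg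
      have e : -(11 / 4 * 1 : ℝ) = -(11 / 4) := by norm_num
      rw [e] at h
      exact h
    have h3 := (h2.exp).const_mul (-(4 / 11) : ℝ)
    have e3 : -(4 / 11) * (Real.exp (-(11 / 4 * (1 + y))) * -(11 / 4)) =
        Real.exp (-(11 / 4 * (1 + y))) := by ring
    rw [e3] at h3
    exact h3
  rw [intervalIntegral.integral_eq_sub_of_hasDerivAt h1
    (Continuous.intervalIntegrable (by fun_prop) _ _)]
  have h4 : Real.exp (-(11 / 4 * (1 + (-1 : ℝ)))) = 1 := by norm_num
  have h5 := Real.exp_pos (-(11 / 4 * (1 + (1 : ℝ))))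
  rw [h4]
  linarith

theorem t_MEAN : S_MEAN := by
  intro n adj hn
  obtain ⟨K, hK⟩ : ∃ K : Set (Fin n → ℝ), K = KK (Rel adj) := ⟨_, rfl⟩
  have hcl : IsClosed K := by rw [hK]; exact KK_closed adj
  have hmem : ∀ y, y ∈ K ↔ (∀ v, -1 ≤ y v ∧ y v ≤ 1) ∧ ∀ v w, adj v w → y v ≤ -y w := by
    intro y
    rw [hK]
    exact mem_KK adj y
  rw [← hK]
  have hsub : K ⊆ Icc (fun _ => -1) (fun _ => 1) := by
    intro y hy
    rw [hmem] at hy
    exact ⟨fun v => (hy.1 v).1, fun v => (hy.1 v).2⟩
  have hcp : IsCompact K := isCompact_Icc.of_isClosed_subset hcl hsub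
  have hKm : MeasurableSet K := hcl.measurableSet
  have hV1 : 1 ≤ volume K := by
    have h1 : Icc (fun _ : Fin n => (-1 : ℝ)) (fun _ => 0) ⊆ K := by
      intro y hy
      rw [hmem]
      refine ⟨fun v => ⟨hy.1 v, (hy.2 v).trans (by norm_num)⟩, fun v w _ => ?_⟩
      have h2 : y v ≤ 0 := hy.2 v
      have h3 : y w ≤ 0 := hy.2 w
      linarith
    refine le_trans ?_ (measure_mono h1)
    rw [Real.volume_Icc_pi]
    simp
  refine ⟨hV1, ?_⟩
  have hfin : volume K ≠ ⊤ := hcp.measure_lt_top.ne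
  obtain ⟨V, hV⟩ : ∃ V : ℝ, V = (volume K).toReal := ⟨_, rfl⟩
  have hVone : 1 ≤ V := by
    rw [hV]
    have := ENNReal.toReal_mono hfin hV1
    rwa [ENNReal.toReal_one] at this
  rw [← hV]
  by_contra hcon
  push Not at hcon
  -- the exponential function
  obtain ⟨E, hE⟩ : ∃ E : (Fin n → ℝ) → ℝ, ∀ y, E y = Real.exp (-∑ v, 11 / 4 * (1 + y v)) :=
    ⟨_, fun _ => rfl⟩
  have hEc : Continuous E := by
    have : E = fun y => Real.exp (-∑ v, 11 / 4 * (1 + y v)) := funext hE
    rw [this]
    fun_prop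
  have hEi : IntegrableOn E K := hEc.continuousOn.integrableOn_compact hcp
  have hxi : ∀ v : Fin n, IntegrableOn (fun y : Fin n → ℝ => 11 / 4 * (1 + y v)) K := fun v =>
    (Continuous.continuousOn (by fun_prop)).integrableOn_compact hcp
  -- lower bound
  have hlow : Real.exp (-n) ≤ ∫ y in K, E y := by
    have h1 : ∀ y : Fin n → ℝ, Real.exp (-n) * ((1 + n) - ∑ v, 11 / 4 * (1 + y v)) ≤ E y := by
      intro y
      rw [hE]
      have h2 := Real.add_one_le_exp ((n : ℝ) - ∑ v, 11 / 4 * (1 + y v))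
      have h3 : Real.exp (-∑ v, 11 / 4 * (1 + y v)) =
          Real.exp (-n) * Real.exp ((n : ℝ) - ∑ v, 11 / 4 * (1 + y v)) := by
        rw [← Real.exp_add]
        congr 1
        ring
      rw [h3]
      apply mul_le_mul_of_nonneg_left _ (Real.exp_pos _).le
      linarith
    have hsi : IntegrableOn (fun y : Fin n → ℝ => ∑ v, 11 / 4 * (1 + y v)) K :=
      (Continuous.continuousOn (by fun_prop)).integrableOn_compact hcp
    have hci : IntegrableOn (fun y : Fin n → ℝ => (1 : ℝ) + n) K := integrableOn_const hfin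
    have hdi : IntegrableOn (fun y : Fin n → ℝ => ((1 : ℝ) + n) - ∑ v, 11 / 4 * (1 + y v)) K :=
      hci.sub hsi
    have h4 : ∫ y in K, Real.exp (-n) * ((1 + n) - ∑ v, 11 / 4 * (1 + y v)) ≤ ∫ y in K, E y :=
      setIntegral_mono (hdi.const_mul _) hEi h1
    have h5 : ∫ y in K, (((1 : ℝ) + n) - ∑ v, 11 / 4 * (1 + y v)) =
        (1 + n) * V - ∑ v, ∫ y in K, 11 / 4 * (1 + y v) := by
      rw [integral_sub hci hsi, setIntegral_const, integral_finset_sum _ fun v _ => hxi v,
        smul_eq_mul]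
      have e2 : volume.real K = V := hV.symm
      rw [e2]
      ring
    have h6 : ∑ v : Fin n, ∫ y in K, 11 / 4 * (1 + y v) ≤ n * V := by
      have h7 : ∀ v ∈ (Finset.univ : Finset (Fin n)), ∫ y in K, 11 / 4 * (1 + y v) ≤ V := by
        intro v _
        have h8 := hcon v
        have h9 : ∫ y in K, 11 / 4 * (1 + y v) = 11 / 2 * ∫ y in K, (1 + y v) / 2 := by
          rw [← integral_const_mul]
          congr 1
          funext y
          ring
        rw [h9]
        linarith
      refine (Finset.sum_le_card_nsmul _ _ _ h7).trans (le_of_eq ?_)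
      rw [nsmul_eq_mul, Finset.card_univ, Fintype.card_fin]
    rw [integral_const_mul, h5] at h4
    refine le_trans ?_ h4
    have h10 : 1 ≤ (1 + n) * V - ∑ v : Fin n, ∫ y in K, 11 / 4 * (1 + y v) := by linarith
    calc Real.exp (-n) = Real.exp (-n) * 1 := (mul_one _).symm
      _ ≤ _ := mul_le_mul_of_nonneg_left h10 (Real.exp_pos _).le
  -- upper bound
  obtain ⟨f, hf⟩ : ∃ f : ℝ → ℝ, f = (Icc (-1 : ℝ) 1).indicator
    fun y => Real.exp (-(11 / 4 * (1 + y))) := ⟨_, rfl⟩
  have hfi : Integrable f := by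
    rw [hf]
    exact (integrable_indicator_iff measurableSet_Icc).2
      ((Continuous.continuousOn (by fun_prop)).integrableOn_compact isCompact_Icc)
  have hf0 : ∀ y, 0 ≤ f y := by
    intro y
    rw [hf]
    exact Set.indicator_nonneg (fun _ _ => (Real.exp_pos _).le) _
  have hup : ∫ y in K, E y ≤ (4 / 11) ^ n := by
    have h1 : ∫ y in K, E y = ∫ y in K, ∏ v, f (y v) := by
      refine setIntegral_congr_fun hKm fun y hy => ?_
      rw [hmem] at hy
      simp only [hE]
      rw [← Finset.sum_neg_distrib, Real.exp_sum]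
      refine Finset.prod_congr rfl fun v _ => ?_
      rw [hf, Set.indicator_of_mem (show y v ∈ Icc (-1 : ℝ) 1 from ⟨(hy.1 v).1, (hy.1 v).2⟩)]
    have hFi : Integrable (fun y : Fin n → ℝ => ∏ v, f (y v)) :=
      Integrable.fintype_prod (f := fun _ : Fin n => f) fun _ => hfi
    have h2 : ∫ y in K, ∏ v, f (y v) ≤ ∫ y : Fin n → ℝ, ∏ v, f (y v) :=
      setIntegral_le_integral hFi
        (Filter.Eventually.of_forall fun y => Finset.prod_nonneg fun v _ => hf0 _)
    have h3 : ∫ y : Fin n → ℝ, ∏ v, f (y v) = (∫ y, f y) ^ n := by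
      have := integral_fintype_prod_volume_eq_prod (fun _ : Fin n => f)
      rw [this, Finset.prod_const, Finset.card_univ, Fintype.card_fin]
    have h4 : ∫ y, f y ≤ 4 / 11 := by
      rw [hf, integral_indicator measurableSet_Icc]
      exact one_dim
    rw [h1]
    refine h2.trans ?_
    rw [h3]
    exact pow_le_pow_left₀ (integral_nonneg hf0) h4 n
  -- contradiction
  have h1 : Real.exp (-1) ^ n ≤ (4 / 11) ^ n := by
    rw [← Real.exp_nat_mul]
    have : (n : ℝ) * -1 = -n := by ring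
    rw [this]
    exact hlow.trans hup
  have h2 : Real.exp (-1) ≤ 4 / 11 := by
    by_contra h3
    push Not at h3
    exact absurd h1 (not_le.2 (pow_lt_pow_left₀ h3 (by norm_num) (by omega)))
  have h3 : Real.exp (-1) * Real.exp 1 = 1 := by rw [← Real.exp_add]; norm_num
  have h4 := Real.exp_one_lt_d9
  have h5 := Real.exp_pos (-1)
  nlinarith

end Run7.h803.EP
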